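import Pool.Agent.S01864

set_option autoImplicit false

/-!
# A finitely generated right alternative nil ring of bounded index which is not solvable

The ring is the subring generated by three elements of an explicit algebra with six coordinates over
`F₂[z₀, z₁, …] / (zᵢ²)`, constructed in `Pool/Agent/S01864.lean`.
-/

namespace Pool.Agent.Results.MP_702bfb_al.NotSolvable

open Polynomial

/-- Right powers: `rpow x k` is `x^(k+1)`, where `x^1 = x` and `x^(k+1) = x^k x`. -/
def rpow {R : Type} [Mul R] (x : R) : ℕ → R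
  | 0 => x
  | k + 1 => rpow x k * x

/-- The derived series: `A^(0) = A`, and `A^(k+1)` is the additive subgroup spanned by the products
of two elements of `A^(k)`. -/
def derivedSeries (R : Type) [NonUnitalNonAssocRing R] : ℕ → AddSubgroup R
  | 0 => ⊤
  | k + 1 => AddSubgroup.closure
      {z : R | ∃ u ∈ derivedSeries R k, ∃ v ∈ derivedSeries R k, z = u * v}

/-- There is a nonassociative ring generated by three elements, of characteristic two, satisfying
`(xy)y = x(yy)` and `x^4 = 0` for all elements, no term of whose derived series is zero. -/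
theorem result : ∃ (R : Type) (_ : NonUnitalNonAssocRing R) (a b c : R),
    (∀ x y : R, (x * y) * y = x * (y * y)) ∧
    NonUnitalSubring.closure ({a, b, c} : Set R) = ⊤ ∧
    (∀ x : R, rpow x 3 = 0) ∧
    (∀ x : R, x + x = 0) ∧
    ∀ k : ℕ, derivedSeries R k ≠ ⊥ := by
  classical
  -- the coefficient ring
  let L : Type := MvPolynomial ℕ (ZMod 2) ⧸ Pool.Agent.S01864.sqIdeal
  let ζ : ℕ → L := fun i => Ideal.Quotient.mk Pool.Agent.S01864.sqIdeal (MvPolynomial.X i)
  have h2 : (2 : L) = 0 := by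
    have h : (2 : MvPolynomial ℕ (ZMod 2)) = 0 := by
      have : (2 : ZMod 2) = 0 := by decide
      have := congrArg (MvPolynomial.C : ZMod 2 →+* MvPolynomial ℕ (ZMod 2)) this
      simpa only [map_ofNat, map_zero] using this
    have := congrArg (Ideal.Quotient.mk Pool.Agent.S01864.sqIdeal) h
    simpa only [map_ofNat, map_zero] using this
  have hζ : ∀ i, ζ i * ζ i = 0 := by
    intro i
    show Ideal.Quotient.mk _ _ * Ideal.Quotient.mk _ _ = 0
    rw [← map_mul, Ideal.Quotient.eq_zero_iff_mem]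
    refine Ideal.subset_span ⟨Finsupp.single i 2, ⟨i, rfl⟩, ?_⟩
    show MvPolynomial.monomial (Finsupp.single i 2) 1 = _
    rw [MvPolynomial.X, MvPolynomial.monomial_mul, one_mul, ← Finsupp.single_add]
  have hp : ∀ n, ∏ i ∈ Finset.range n, ζ i ≠ 0 := by
    intro n h
    have h' : Ideal.Quotient.mk Pool.Agent.S01864.sqIdeal
        (∏ i ∈ Finset.range n, MvPolynomial.X i) = 0 := by
      rw [map_prod]
      exact h
    rw [Ideal.Quotient.eq_zero_iff_mem] at h'
    exact Pool.Agent.S01864.prod_not_mem n h'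
  -- the functional
  obtain ⟨φ, hφ⟩ : ∃ φ : L[X] →ₗ[L] L, ∀ f, φ f = f.sum (fun k r => r * ζ k) :=
    ⟨Polynomial.lsum (fun n => LinearMap.mulRight L (ζ n)), fun f => rfl⟩
  have hφX : ∀ n, φ (X ^ n) = ζ n := by
    intro n
    rw [hφ, ← monomial_one_right_eq_X_pow, sum_monomial_index _ _ (by simp)]
    simp
  let I : Ideal L := Ideal.span (Set.range ζ)
  have hI : ∀ z ∈ I, z * z = 0 := by
    intro z hz
    refine Submodule.span_induction (p := fun z _ => z * z = 0) ?_ ?_ ?_ ?_ hz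
    · rintro _ ⟨i, rfl⟩; exact hζ i
    · simp
    · intro x y _ _ hx hy
      linear_combination hx + hy + (x * y) * h2
    · intro r x _ hx
      rw [smul_eq_mul]
      linear_combination r * r * hx
  have hφI : ∀ f, φ f ∈ I := by
    intro f
    rw [hφ]
    refine Submodule.sum_mem _ fun k _ => ?_
    exact Ideal.mul_mem_left _ _ (Ideal.subset_span ⟨k, rfl⟩)
  have hd : ∀ w : L, w + w = 0 := fun w => by rw [← two_mul, h2, zero_mul]
  have h2' : (2 : L[X]) = 0 := Pool.Agent.S01864.Alg.two_poly h2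
  have hd' : ∀ w : L[X], w + w = 0 := fun w => by rw [← two_mul, h2', zero_mul]
  let G : Set (Pool.Agent.S01864.Alg φ) := Pool.Agent.S01864.Alg.gens φ
  have ha : (⟨1, 0, 0, 0, 0, 0⟩ : Pool.Agent.S01864.Alg φ) ∈ Pool.Agent.S01864.Alg.sub φ :=
    NonUnitalSubring.subset_closure (by simp [Pool.Agent.S01864.Alg.gens])
  have hb : (⟨0, 1, 0, 0, 0, 0⟩ : Pool.Agent.S01864.Alg φ) ∈ Pool.Agent.S01864.Alg.sub φ :=
    NonUnitalSubring.subset_closure (by simp [Pool.Agent.S01864.Alg.gens])
  have hc : (⟨0, 0, 0, 1, 0, 0⟩ : Pool.Agent.S01864.Alg φ) ∈ Pool.Agent.S01864.Alg.sub φ :=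
    NonUnitalSubring.subset_closure (by simp [Pool.Agent.S01864.Alg.gens])
  refine ⟨Pool.Agent.S01864.Alg.sub φ, inferInstance, ⟨_, ha⟩, ⟨_, hb⟩, ⟨_, hc⟩,
    fun x y => Subtype.ext (Pool.Agent.S01864.Alg.rightAlt h2 x.1 y.1), ?_, ?_, ?_, ?_⟩
  · rw [eq_top_iff]
    have hle : NonUnitalSubring.closure (Pool.Agent.S01864.Alg.gens φ) ≤
        (NonUnitalSubring.closure ({⟨_, ha⟩, ⟨_, hb⟩, ⟨_, hc⟩} :
          Set (Pool.Agent.S01864.Alg.sub φ))).map
          (NonUnitalSubringClass.subtype (Pool.Agent.S01864.Alg.sub φ)) := by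
      rw [NonUnitalSubring.closure_le]
      rintro x (rfl | rfl | rfl)
      · exact ⟨⟨_, ha⟩, NonUnitalSubring.subset_closure (by simp), rfl⟩
      · exact ⟨⟨_, hb⟩, NonUnitalSubring.subset_closure (by simp), rfl⟩
      · exact ⟨⟨_, hc⟩, NonUnitalSubring.subset_closure (by simp), rfl⟩
    rintro ⟨x, hx⟩ -
    obtain ⟨k, hk, hkx⟩ := hle hx
    have : k = ⟨x, hx⟩ := Subtype.ext hkx
    rw [← this]
    exact hk
  · intro x
    refine Subtype.ext ?_
    show ((x.1 * x.1) * x.1) * x.1 = 0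
    rw [Pool.Agent.S01864.Alg.rightAlt h2]
    exact Pool.Agent.S01864.Alg.sq_sq h2 x.1
      (hI _ (Pool.Agent.S01864.Alg.zz_mem I hφI x.1 x.2))
  · intro x
    refine Subtype.ext ?_
    show x.1 + x.1 = 0
    ext1 <;> simp [hd, hd']
  · have hDk : ∀ k i : ℕ, ∃ r : Pool.Agent.S01864.Alg.sub φ,
        r ∈ derivedSeries (Pool.Agent.S01864.Alg.sub φ) k ∧
          (r : Pool.Agent.S01864.Alg φ) = ⟨0, 0, 0, 0, 0, Pool.Agent.S01864.pp ζ i k⟩ := by
      intro k
      induction k with
      | zero =>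
        intro i
        refine ⟨⟨_, Pool.Agent.S01864.Alg.z_mem i⟩, trivial, ?_⟩
        show (⟨0, 0, 0, 0, 0, φ (X ^ i)⟩ : Pool.Agent.S01864.Alg φ) = _
        rw [hφX]; rfl
      | succ k ih =>
        intro i
        obtain ⟨r1, h1, e1⟩ := ih (2 * i)
        obtain ⟨r2, h2, e2⟩ := ih (2 * i + 1)
        refine ⟨r1 * r2, AddSubgroup.subset_closure ⟨r1, h1, r2, h2, rfl⟩, ?_⟩
        show (r1 : Pool.Agent.S01864.Alg φ) * (r2 : Pool.Agent.S01864.Alg φ) = _
        rw [e1, e2, Pool.Agent.S01864.Alg.mul_z]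
        rfl
    intro m hm
    obtain ⟨r, hr, er⟩ := hDk m 0
    rw [hm, AddSubgroup.mem_bot] at hr
    rw [hr] at er
    have e3 : Pool.Agent.S01864.pp ζ 0 m = 0 := (congrArg Pool.Agent.S01864.Alg.zz er).symm
    rw [Pool.Agent.S01864.pp_eq] at e3
    apply hp (2 ^ m)
    rw [Finset.range_eq_Ico]
    simpa only [zero_mul, zero_add, one_mul] using e3

end Pool.Agent.Results.MP_702bfb_al.NotSolvable
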